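import Pool.Agent.N236.UR.Stm

/-! The rank one lemma of project UR (helper318). -/

set_option autoImplicit false

namespace Pool.Agent.N318.UR

open Pool.Agent.N236.UR

/-- pairwise incongruent -/
def P3 (n : ℕ) (i j k : ℤ) : Prop := ¬ (n : ℤ) ∣ i - j ∧ ¬ (n : ℤ) ∣ i - k ∧ ¬ (n : ℤ) ∣ j - k

/-- `R i j R i k / R j k` -/
noncomputable def ff (R : ℤ → ℤ → ℝ) (i j k : ℤ) : ℝ := R i j * R i k / R j k

lemma ndvd_comm {n : ℕ} {i j : ℤ} (h : ¬ (n : ℤ) ∣ i - j) : ¬ (n : ℤ) ∣ j - i := by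
  rwa [← dvd_neg, neg_sub]

lemma per1 {n : ℕ} {R : ℤ → ℤ → ℝ} (hp : ∀ i j : ℤ, R (i + n) j = R i j) {i i' : ℤ} (h : (n : ℤ) ∣ i - i') (j : ℤ) :
    R i j = R i' j := by
  have hn : ∀ (m : ℕ) (i : ℤ), R (i + n * m) j = R i j := by
    intro m
    induction m with
    | zero => intro i; simp
    | succ m ih =>
      intro i
      have : i + (n : ℤ) * ((m + 1 : ℕ) : ℤ) = (i + n * m) + n := by push_cast; ring
      rw [this, hp, ih]
  obtain ⟨t, ht⟩ := h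
  rcases le_total 0 t with h0 | h0
  · obtain ⟨m, rfl⟩ := Int.eq_ofNat_of_zero_le h0
    have : i = i' + n * m := by linarith
    rw [this, hn]
  · obtain ⟨m, hm⟩ := Int.eq_ofNat_of_zero_le (neg_nonneg.2 h0)
    have : i' = i + n * m := by rw [← hm]; linarith
    rw [this, hn]

lemma per2 {n : ℕ} {R : ℤ → ℤ → ℝ} (hs : ∀ i j, R i j = R j i) (hp : ∀ i j : ℤ, R (i + n) j = R i j) {j j' : ℤ}
    (h : (n : ℤ) ∣ j - j') (i : ℤ) : R i j = R i j' := by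
  rw [hs i j, hs i j', per1 hp h]

lemma rep {n : ℕ} {R : ℤ → ℤ → ℝ} (hs : ∀ i j, R i j = R j i) (hp : ∀ i j : ℤ, R (i + n) j = R i j)
    (h0 : ∀ i j, ¬ (n : ℤ) ∣ i - j → 0 < R i j)
    (h4 : ∀ a b c d : ℤ, Dis4 n a b c d → R a b * R c d = R a c * R b d) {i j k k' : ℤ} (h1 : P3 n i j k)
    (h2 : P3 n i j k') : ff R i j k = ff R i j k' := by
  unfold ff
  by_cases h : (n : ℤ) ∣ k - k'
  · rw [per2 hs hp h i, per2 hs hp h j]
  · have e := h4 i k k' j ⟨h1.2.1, h2.2.1, h1.1, h, ndvd_comm h1.2.2, ndvd_comm h2.2.2⟩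
    rw [hs k' j, hs k j] at e
    have p1 := h0 j k h1.2.2
    have p2 := h0 j k' h2.2.2
    rw [div_eq_div_iff p1.ne' p2.ne', mul_assoc, mul_assoc, e]

lemma sym {R : ℤ → ℤ → ℝ} (hs : ∀ i j, R i j = R j i) (i j k : ℤ) : ff R i j k = ff R i k j := by
  unfold ff
  rw [hs j k, mul_comm (R i j)]

lemma all {n : ℕ} {R : ℤ → ℤ → ℝ} (hs : ∀ i j, R i j = R j i) (hp : ∀ i j : ℤ, R (i + n) j = R i j)
    (h0 : ∀ i j, ¬ (n : ℤ) ∣ i - j → 0 < R i j)
    (h4 : ∀ a b c d : ℤ, Dis4 n a b c d → R a b * R c d = R a c * R b d) {i j k j' k' : ℤ} (h1 : P3 n i j k)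
    (h2 : P3 n i j' k') : ff R i j k = ff R i j' k' := by
  have h2' : P3 n i k' j' := ⟨h2.2.1, h2.1, ndvd_comm h2.2.2⟩
  by_cases h : (n : ℤ) ∣ j - k'
  · have e : ff R i j k = ff R i k' k := by
      unfold ff
      rw [per2 hs hp h i, per1 hp h k]
    have h3 : P3 n i k' k := by
      refine ⟨h2.2.1, h1.2.1, fun hd => h1.2.2 ?_⟩
      have : j - k = (j - k') + (k' - k) := by ring
      rw [this]
      exact dvd_add h hd
    rw [e, rep hs hp h0 h4 h3 h2', sym hs]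
  · have h3 : P3 n i j k' := ⟨h1.1, h2.2.1, h⟩
    have h3' : P3 n i k' j := ⟨h2.2.1, h1.1, ndvd_comm h⟩
    rw [rep hs hp h0 h4 h1 h3, sym hs, rep hs hp h0 h4 h3' h2', sym hs]

lemma nd {n : ℕ} (hn : 4 ≤ n) {t : ℤ} (h0 : t ≠ 0) (h1 : |t| < 4) : ¬ (n : ℤ) ∣ t := by
  intro h
  have h2 := Int.le_of_dvd (abs_pos.2 h0) ((dvd_abs _ _).2 h)
  have : (4 : ℤ) ≤ n := by exact_mod_cast hn
  linarith

theorem t_rk : S_RK := by
  intro n R hn hs hp h0 h4
  have hP : ∀ i : ℤ, P3 n i (i + 1) (i + 2) := by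
    intro i
    refine ⟨nd hn ?_ ?_, nd hn ?_ ?_, nd hn ?_ ?_⟩ <;> norm_num
  have hpos : ∀ {i j k : ℤ}, P3 n i j k → 0 < ff R i j k := by
    intro i j k h
    exact div_pos (mul_pos (h0 _ _ h.1) (h0 _ _ h.2.1)) (h0 _ _ h.2.2)
  refine ⟨fun i => √(ff R i (i + 1) (i + 2)), fun i => Real.sqrt_pos.2 (hpos (hP i)), fun i => ?_, fun i j hij => ?_⟩
  · have e : ff R (i + n) (i + n + 1) (i + n + 2) = ff R i (i + 1) (i + 2) := by
      unfold ff
      have e1 : (i + n + 1 : ℤ) = (i + 1) + n := by ring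
      have e2 : (i + n + 2 : ℤ) = (i + 2) + n := by ring
      rw [e1, e2, hp, hp, hp, hs i (i + 1 + n), hs i (i + 2 + n), hs (i + 1) (i + 2 + n), hp, hp, hp, hs (i + 1) i,
        hs (i + 2) i, hs (i + 2) (i + 1)]
    simp only [e]
  · obtain ⟨k, hik, hjk⟩ : ∃ k : ℤ, ¬ (n : ℤ) ∣ i - k ∧ ¬ (n : ℤ) ∣ j - k := by
      by_cases h : (n : ℤ) ∣ j - (i + 1)
      · refine ⟨i + 2, nd hn ?_ ?_, fun h2 => ?_⟩
        · norm_num
        · norm_num
        · have h3 := dvd_sub h h2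
          have e : j - (i + 1) - (j - (i + 2)) = 1 := by ring
          rw [e] at h3
          exact nd hn (by norm_num) (by norm_num) h3
      · refine ⟨i + 1, nd hn ?_ ?_, h⟩
        · norm_num
        · norm_num
    have h1 : P3 n i j k := ⟨hij, hik, hjk⟩
    have h2 : P3 n j i k := ⟨ndvd_comm hij, hjk, hik⟩
    have p1 := h0 i j hij
    have p2 := h0 i k hik
    have p3 := h0 j k hjk
    simp only
    rw [all hs hp h0 h4 (hP i) h1, all hs hp h0 h4 (hP j) h2, ← Real.sqrt_mul (hpos h1).le]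
    have e : ff R i j k * ff R j i k = R i j ^ 2 := by
      unfold ff
      rw [hs j i]
      field_simp
    rw [e, Real.sqrt_sq p1.le]

end Pool.Agent.N318.UR
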